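import Mathlib

namespace Pool.Agent.MP_fadef1_lc

/-- the list as fraction in base `b`: `∑ l_i b^(-i-1)` -/
def val (b : ℕ) : List ℕ → ℚ
  | [] => 0
  | a :: l => ((a : ℚ) + val b l) / b

theorem val_nonneg (b : ℕ) (l : List ℕ) : 0 ≤ val b l := by
  induction l with
  | nil => exact le_refl _
  | cons a l ih => simp only [val]; positivity

/-- Induction: `val b l < 1` (from `b * val < g ≤ b`), so `b * val b (a :: l) = a + val b l < g`. -/
theorem val_lt {b g : ℕ} (hg : 1 ≤ g) (hb : g ≤ b) {l : List ℕ} (hl : ∀ x ∈ l, x < g) :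
    (b : ℚ) * val b l < g := by
  have hb0 : (0 : ℚ) < b := by
    have : 0 < b := by omega
    exact_mod_cast this
  induction l with
  | nil =>
    simp only [val, mul_zero]
    exact_mod_cast (by omega : 0 < g)
  | cons a l ih =>
    have h1 := ih (fun x hx => hl x (List.mem_cons_of_mem _ hx))
    have ha : a < g := hl a List.mem_cons_self
    have h2 : val b l < 1 := by
      have h3 : (b : ℚ) * val b l < b * 1 := by
        have : (g : ℚ) ≤ b := by exact_mod_cast hb
        linarith
      exact lt_of_mul_lt_mul_left h3 hb0.le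
    simp only [val]
    rw [mul_div_cancel₀ _ hb0.ne']
    have h4 : (a : ℚ) + 1 ≤ g := by exact_mod_cast ha
    linarith

/-- `b * val b l = headI l + val b (tail l)` (also for the empty list). -/
theorem val_head (b : ℕ) (hb : 0 < b) (l : List ℕ) :
    (b : ℚ) * val b l = (l.headI : ℚ) + val b l.tail := by
  have hb0 : (b : ℚ) ≠ 0 := by exact_mod_cast hb.ne'
  cases l with
  | nil => simp [val]
  | cons a l =>
    simp only [val, List.headI_cons, List.tail_cons]
    rw [mul_div_cancel₀ _ hb0]

private theorem val_num_aux (b : ℕ) (hb : 0 < b) (l : List ℕ) (acc : ℕ) :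
    ((l.foldl (fun acc d => acc * b + d) acc : ℕ) : ℚ) =
      acc * (b : ℚ) ^ l.length + (b : ℚ) ^ l.length * val b l := by
  have hb0 : (b : ℚ) ≠ 0 := by exact_mod_cast hb.ne'
  induction l generalizing acc with
  | nil => simp [val]
  | cons a l ih =>
    rw [List.foldl_cons, ih]
    simp only [val, List.length_cons, pow_succ]
    push_cast
    field_simp
    ring

/-- `foldl` value: `num l = b ^ length * val l`. (Generalize the accumulator:
`foldl acc = acc * b ^ length + b ^ length * val`.) -/
theorem val_num (b : ℕ) (hb : 0 < b) (l : List ℕ) :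
    ((l.foldl (fun acc d => acc * b + d) 0 : ℕ) : ℚ) = (b : ℚ) ^ l.length * val b l := by
  rw [val_num_aux b hb l 0]
  simp

end Pool.Agent.MP_fadef1_lc
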